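import Pool.Agent.X229.WrForm

/-!
# MP_1ed635_nt : a binary form with exactly two minimal representations

The quartic `(x+y)⁴ - 9x⁴ - 9y⁴ = 9(x-y)⁴ - (2x-y)⁴ - (x-2y)⁴` has `ℚ`-length `3` and exactly two
`ℚ`-minimal representations.
-/

namespace Pool.Agent.Results.MP_1ed635_nt.ExactlyTwoMinimal

open MvPolynomial Pool.Agent.X229.WrForm

/-- The binary form `l (α x + β y)^d` (with `x = X 0`, `y = X 1`). -/
noncomputable def summand (d : ℕ) (l α β : ℂ) : MvPolynomial (Fin 2) ℂ :=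
  C l * (C α * X 0 + C β * X 1) ^ d

/-- `IsRep K d f r S`: there are `l j, α j, β j ∈ K` (`j < r`) with
`f = ∑ j, l j (α j x + β j y)^d`, and `S` is the multiset of the `r` summands.  So `S` is a
`K`-representation of length `r`, up to the order of its summands. -/
def IsRep (K : Subfield ℂ) (d : ℕ) (f : MvPolynomial (Fin 2) ℂ) (r : ℕ)
    (S : Multiset (MvPolynomial (Fin 2) ℂ)) : Prop :=
  ∃ l α β : Fin r → ℂ, (∀ j, l j ∈ K ∧ α j ∈ K ∧ β j ∈ K) ∧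
    f = ∑ j, summand d (l j) (α j) (β j) ∧
    S = (Finset.univ : Finset (Fin r)).val.map (fun j => summand d (l j) (α j) (β j))

/-- The `K`-length of `f` is `r`. -/
def HasLength (K : Subfield ℂ) (d : ℕ) (f : MvPolynomial (Fin 2) ℂ) (r : ℕ) : Prop :=
  (∃ S, IsRep K d f r S) ∧ ∀ r' < r, ¬ ∃ S, IsRep K d f r' S

/-- The set of `K`-minimal representations of `f` (different means: different multisets of
summands). -/
def MinimalReps (K : Subfield ℂ) (d : ℕ) (f : MvPolynomial (Fin 2) ℂ) :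
    Set (Multiset (MvPolynomial (Fin 2) ℂ)) :=
  {S | ∃ r, HasLength K d f r ∧ IsRep K d f r S}

/-- The field `ℚ` as a subfield of `ℂ`. -/
noncomputable def Q : Subfield ℂ := (algebraMap ℚ ℂ).fieldRange

/-- The quartic form `(x+y)⁴ - 9x⁴ - 9y⁴`. -/
noncomputable def quartic : MvPolynomial (Fin 2) ℂ :=
  (X 0 + X 1) ^ 4 - C 9 * X 0 ^ 4 - C 9 * X 1 ^ 4

/-- The representation `-9 y⁴ - 9 x⁴ + (x+y)⁴`. -/
noncomputable def rep₁ : Multiset (MvPolynomial (Fin 2) ℂ) :=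
  {summand 4 (-9) 0 1, summand 4 (-9) 1 0, summand 4 1 1 1}

/-- The representation `-(x-2y)⁴ + 9(x-y)⁴ - (-2x+y)⁴`. -/
noncomputable def rep₂ : Multiset (MvPolynomial (Fin 2) ℂ) :=
  {summand 4 (-1) 1 (-2), summand 4 9 1 (-1), summand 4 (-1) (-2) 1}

theorem F_eq (l a b : ℚ) : F l a b = summand 4 l a b := rfl

theorem S1_eq : S1 = rep₁ := by
  simp only [S1, rep₁, F_eq]
  norm_num

theorem S2_eq : S2 = rep₂ := by
  simp only [S2, rep₂, F_eq]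
  norm_num

theorem coeffs {l0 l1 l2 a0 a1 a2 b0 b1 b2 : ℚ}
    (E : ∀ x y : ℚ, l0 * (a0 * x + b0 * y) ^ 4 + l1 * (a1 * x + b1 * y) ^ 4
      + l2 * (a2 * x + b2 * y) ^ 4 = (x + y) ^ 4 - 9 * x ^ 4 - 9 * y ^ 4) :
    (l0 * b0 ^ 4 + l1 * b1 ^ 4 + l2 * b2 ^ 4 = -8) ∧
    (l0 * a0 * b0 ^ 3 + l1 * a1 * b1 ^ 3 + l2 * a2 * b2 ^ 3 = 1) ∧
    (l0 * a0 ^ 2 * b0 ^ 2 + l1 * a1 ^ 2 * b1 ^ 2 + l2 * a2 ^ 2 * b2 ^ 2 = 1) ∧
    (l0 * a0 ^ 3 * b0 + l1 * a1 ^ 3 * b1 + l2 * a2 ^ 3 * b2 = 1) ∧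
    (l0 * a0 ^ 4 + l1 * a1 ^ 4 + l2 * a2 ^ 4 = -8) := by
  have e1 := E 1 0
  have e2 := E 0 1
  have e3 := E 1 1
  have e4 := E 1 (-1)
  have e5 := E 1 2
  refine ⟨?_, ?_, ?_, ?_, ?_⟩
  · linarith
  · linarith
  · linarith
  · linarith
  · linarith

theorem rational {r : ℕ} {S : Multiset (MvPolynomial (Fin 2) ℂ)} (h : IsRep Q 4 quartic r S) :
    ∃ l a b : Fin r → ℚ,
      (∀ x y : ℚ, ∑ j, l j * (a j * x + b j * y) ^ 4 = (x + y) ^ 4 - 9 * x ^ 4 - 9 * y ^ 4) ∧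
      S = (Finset.univ : Finset (Fin r)).val.map (fun j => F (l j) (a j) (b j)) := by
  obtain ⟨l, α, β, hK, hf, hS⟩ := h
  have h1 : ∀ j, ∃ q : ℚ, (q : ℂ) = l j := fun j => (hK j).1
  have h2 : ∀ j, ∃ q : ℚ, (q : ℂ) = α j := fun j => (hK j).2.1
  have h3 : ∀ j, ∃ q : ℚ, (q : ℂ) = β j := fun j => (hK j).2.2
  choose l' hl' using h1
  choose a' ha' using h2
  choose b' hb' using h3
  refine ⟨l', a', b', ?_, ?_⟩
  · intro x y
    have h4 := congrArg (MvPolynomial.eval ![(x:ℂ), (y:ℂ)]) hf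
    simp only [quartic, summand, map_sub, map_add, map_mul, map_pow, map_sum, eval_X, eval_C,
      Matrix.cons_val_zero, Matrix.cons_val_one, ← hl', ← ha', ← hb'] at h4
    have h5 : (((∑ j, l' j * (a' j * x + b' j * y) ^ 4 : ℚ)) : ℂ)
        = (((x + y) ^ 4 - 9 * x ^ 4 - 9 * y ^ 4 : ℚ) : ℂ) := by
      simp only [Rat.cast_sum, Rat.cast_mul, Rat.cast_pow, Rat.cast_add, Rat.cast_sub,
        Rat.cast_ofNat]
      exact h4.symm
    exact Rat.cast_injective h5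
  · rw [hS]
    apply Multiset.map_congr rfl
    intro j _
    rw [F_eq, hl', ha', hb']

theorem rep_len3 {S : Multiset (MvPolynomial (Fin 2) ℂ)} (h : IsRep Q 4 quartic 3 S) :
    S = rep₁ ∨ S = rep₂ := by
  obtain ⟨l, a, b, hE, hS⟩ := rational h
  have hE' : ∀ x y : ℚ, l 0 * (a 0 * x + b 0 * y) ^ 4 + l 1 * (a 1 * x + b 1 * y) ^ 4
      + l 2 * (a 2 * x + b 2 * y) ^ 4 = (x + y) ^ 4 - 9 * x ^ 4 - 9 * y ^ 4 := by
    intro x y
    rw [← hE x y, Fin.sum_univ_three]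
  obtain ⟨c0, c1, c2, c3, c4⟩ := coeffs hE'
  have hS' : S = {F (l 0) (a 0) (b 0), F (l 1) (a 1) (b 1), F (l 2) (a 2) (b 2)} := by
    rw [hS]
    rfl
  rw [hS', ← S1_eq, ← S2_eq]
  exact final c0 c1 c2 c3 c4

theorem no_rep_lt3 {r : ℕ} (hr : r < 3) {S : Multiset (MvPolynomial (Fin 2) ℂ)} :
    ¬ IsRep Q 4 quartic r S := by
  intro h
  obtain ⟨l, a, b, hE, _⟩ := rational h
  have key : ∀ l0 l1 a0 a1 b0 b1 : ℚ, ¬ ∀ x y : ℚ, l0 * (a0 * x + b0 * y) ^ 4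
      + l1 * (a1 * x + b1 * y) ^ 4 = (x + y) ^ 4 - 9 * x ^ 4 - 9 * y ^ 4 := by
    intro l0 l1 a0 a1 b0 b1 hE
    have hE' : ∀ x y : ℚ, l0 * (a0 * x + b0 * y) ^ 4 + l1 * (a1 * x + b1 * y) ^ 4
        + 0 * (0 * x + 0 * y) ^ 4 = (x + y) ^ 4 - 9 * x ^ 4 - 9 * y ^ 4 := by
      intro x y
      rw [← hE x y]; ring
    obtain ⟨c0, c1, c2, c3, c4⟩ := coeffs hE'
    have := hankel c0 c1 c2 c3 c4
    simp at this
  interval_cases r
  · apply key 0 0 0 0 0 0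
    intro x y
    rw [← hE x y]
    simp
  · apply key (l 0) 0 (a 0) 0 (b 0) 0
    intro x y
    rw [← hE x y]
    simp
  · apply key (l 0) (l 1) (a 0) (a 1) (b 0) (b 1)
    intro x y
    rw [← hE x y, Fin.sum_univ_two]

theorem mem_Q (q : ℚ) : (q : ℂ) ∈ Q := ⟨q, rfl⟩

theorem rep₁_isRep : IsRep Q 4 quartic 3 rep₁ := by
  refine ⟨![-9, -9, 1], ![0, 1, 1], ![1, 0, 1], ?_, ?_, ?_⟩
  · intro j
    have m1 := mem_Q (-9)
    have m2 := mem_Q 1
    have m3 := mem_Q 0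
    push_cast at m1 m2 m3
    fin_cases j <;> exact ⟨by assumption, by assumption, by assumption⟩
  · have h9 : (C (9:ℂ) : MvPolynomial (Fin 2) ℂ) = 9 := map_ofNat C 9
    rw [Fin.sum_univ_three]
    simp [quartic, summand, h9]
    ring
  · rfl

theorem rep₂_isRep : IsRep Q 4 quartic 3 rep₂ := by
  refine ⟨![-1, 9, -1], ![1, 1, -2], ![-2, -1, 1], ?_, ?_, ?_⟩
  · intro j
    have m1 := mem_Q (-1)
    have m2 := mem_Q 1
    have m3 := mem_Q 9
    have m4 := mem_Q (-2)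
    push_cast at m1 m2 m3 m4
    fin_cases j <;> exact ⟨by assumption, by assumption, by assumption⟩
  · have h9 : (C (9:ℂ) : MvPolynomial (Fin 2) ℂ) = 9 := map_ofNat C 9
    have h2 : (C (2:ℂ) : MvPolynomial (Fin 2) ℂ) = 2 := map_ofNat C 2
    rw [Fin.sum_univ_three]
    simp [quartic, summand, h9, h2]
    ring
  · rfl

theorem rep_ne : rep₁ ≠ rep₂ := by
  intro h
  have hm : summand 4 1 1 1 ∈ rep₂ := by
    rw [← h]
    simp [rep₁]
  have hm' : summand 4 1 1 1 = summand 4 (-1) 1 (-2) ∨ summand 4 1 1 1 = summand 4 9 1 (-1) ∨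
      summand 4 1 1 1 = summand 4 (-1) (-2) 1 := by
    simpa [rep₂] using hm
  rcases hm' with h1 | h1 | h1 <;>
  · have h2 := congrArg (MvPolynomial.eval ![(1:ℂ), (-1:ℂ)]) h1
    norm_num [summand] at h2

theorem quartic_hom : quartic.IsHomogeneous 4 := by
  unfold quartic
  have hX : ∀ i : Fin 2, (X i : MvPolynomial (Fin 2) ℂ).IsHomogeneous 1 := isHomogeneous_X ℂ
  have h1 : ((X 0 + X 1 : MvPolynomial (Fin 2) ℂ) ^ 4).IsHomogeneous 4 := by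
    have := ((hX 0).add (hX 1)).pow 4
    simpa using this
  have h2 : ∀ i : Fin 2, (C 9 * X i ^ 4 : MvPolynomial (Fin 2) ℂ).IsHomogeneous 4 := by
    intro i
    have := (isHomogeneous_C (Fin 2) (9:ℂ)).mul ((hX i).pow 4)
    simpa using this
  exact (h1.sub (h2 0)).sub (h2 1)

theorem quartic_coeff (m : Fin 2 →₀ ℕ) : coeff m quartic ∈ Q := by
  have h : quartic = MvPolynomial.map (algebraMap ℚ ℂ)
      ((X 0 + X 1) ^ 4 - C 9 * X 0 ^ 4 - C 9 * X 1 ^ 4) := by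
    simp [quartic]
  rw [h, coeff_map]
  exact ⟨_, rfl⟩

/-- **MP_1ed635_nt, Q1: yes.**  The binary quartic form `(x+y)⁴ - 9x⁴ - 9y⁴` has rational
coefficients and `ℚ`-length `3`, and it has exactly two different `ℚ`-minimal representations. -/
theorem result : quartic.IsHomogeneous 4 ∧ (∀ m, coeff m quartic ∈ Q) ∧ HasLength Q 4 quartic 3 ∧
    MinimalReps Q 4 quartic = {rep₁, rep₂} ∧ (MinimalReps Q 4 quartic).ncard = 2 := by
  have hlen : HasLength Q 4 quartic 3 :=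
    ⟨⟨rep₁, rep₁_isRep⟩, fun r hr ⟨_, hS⟩ => no_rep_lt3 hr hS⟩
  have hset : MinimalReps Q 4 quartic = {rep₁, rep₂} := by
    ext S
    constructor
    · rintro ⟨r, ⟨⟨S', hS'⟩, hmin⟩, hS⟩
      have hr3 : r = 3 := by
        by_contra hne
        rcases lt_or_gt_of_ne hne with hlt | hgt
        · exact no_rep_lt3 hlt hS
        · exact hmin 3 hgt ⟨rep₁, rep₁_isRep⟩
      subst hr3
      exact rep_len3 hS
    · rintro (rfl | rfl)
      · exact ⟨3, hlen, rep₁_isRep⟩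
      · exact ⟨3, hlen, rep₂_isRep⟩
  refine ⟨quartic_hom, quartic_coeff, hlen, hset, ?_⟩
  rw [hset]
  exact Set.ncard_pair rep_ne

end Pool.Agent.Results.MP_1ed635_nt.ExactlyTwoMinimal
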